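import Pool.Agent.Helper14.MR.Defs

/-! R1 of the MR swarm: counting. -/

namespace Pool.Agent.Helper66.MR

open Classical Pool.Agent.Helper14.MR

/-- number of smaller elements -/
noncomputable def rr {A : Type} (X : Finset A) (g : A → ℕ) (a : A) : ℕ :=
  (X.filter (fun y => g y < g a)).card

theorem low_card {A : Type} (X : Finset A) (g : A → ℕ) (k : ℕ) (hk : k < X.card) :
    k + 1 ≤ (X.filter (fun a => rr X g a ≤ k)).card := by
  by_contra hcon
  have h1 : (X.filter (fun a => rr X g a ≤ k)).card ≤ k := by omega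
  have h2 : (X.filter (fun a => ¬ rr X g a ≤ k)).Nonempty := by
    rw [← Finset.card_pos]
    have := Finset.card_filter_add_card_filter_not (s := X) (p := fun a => rr X g a ≤ k)
    omega
  obtain ⟨a, ha, hmin⟩ := Finset.exists_min_image _ g h2
  obtain ⟨haX, hak⟩ := Finset.mem_filter.1 ha
  apply hak
  have h3 : (X.filter (fun y => g y < g a)) ⊆ X.filter (fun a => rr X g a ≤ k) := by
    intro y hy
    obtain ⟨hyX, hya⟩ := Finset.mem_filter.1 hy
    refine Finset.mem_filter.2 ⟨hyX, ?_⟩
    by_contra h4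
    have := hmin y (Finset.mem_filter.2 ⟨hyX, h4⟩)
    omega
  have h4 := Finset.card_le_card h3
  unfold rr
  omega

theorem high_card {A : Type} (X : Finset A) (g : A → ℕ) (k : ℕ) :
    (X.filter (fun a => k ≤ rr X g a)).card + k ≤ X.card ∨
      X.filter (fun a => k ≤ rr X g a) = ∅ := by
  by_cases h : (X.filter (fun a => k ≤ rr X g a)).Nonempty
  · left
    obtain ⟨a, ha, hmin⟩ := Finset.exists_min_image _ g h
    obtain ⟨haX, hak⟩ := Finset.mem_filter.1 ha
    have h1 : Disjoint (X.filter (fun a => k ≤ rr X g a)) (X.filter (fun y => g y < g a)) := by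
      rw [Finset.disjoint_left]
      intro y hy hy2
      have h2 := hmin y hy
      have h3 := (Finset.mem_filter.1 hy2).2
      omega
    have h2 : (X.filter (fun a => k ≤ rr X g a)) ∪ (X.filter (fun y => g y < g a)) ⊆ X :=
      Finset.union_subset (Finset.filter_subset _ _) (Finset.filter_subset _ _)
    have h3 := Finset.card_le_card h2
    rw [Finset.card_union_of_disjoint h1] at h3
    have h4 : k ≤ (X.filter (fun y => g y < g a)).card := hak
    omega
  · right
    exact Finset.not_nonempty_iff_eq_empty.1 h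

theorem R1 {A : Type} (X G : Finset A) (q : ℕ) (s : Fin 3 → A → ℕ) (hGX : G ⊆ X)
    (hG : (X \ G).card ≤ 3 * q) (hX : 15 * q + 2 ≤ X.card) :
    ∃ a ∈ G, ∃ i j : Fin 3, i ≠ j ∧
      q + 1 ≤ (X.filter (fun y => y ≠ a ∧ s i a ≤ s i y ∧ s j a ≤ s j y)).card := by
  by_contra hcon
  push_neg at hcon
  have key : ∀ a ∈ G, ∀ i j : Fin 3, i ≠ j →
      X.card ≤ rr X (s i) a + rr X (s j) a + q + 1 := by
    intro a ha i j hij
    have h1 := hcon a ha i j hij
    have hsub : X ⊆ {a} ∪ ((X.filter (fun y => s i y < s i a)) ∪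
        ((X.filter (fun y => s j y < s j a)) ∪
        (X.filter (fun y => y ≠ a ∧ s i a ≤ s i y ∧ s j a ≤ s j y)))) := by
      intro y hy
      simp only [Finset.mem_union, Finset.mem_singleton, Finset.mem_filter]
      by_cases h2 : y = a
      · exact Or.inl h2
      · right
        by_cases h3 : s i y < s i a
        · exact Or.inl ⟨hy, h3⟩
        · right
          by_cases h4 : s j y < s j a
          · exact Or.inl ⟨hy, h4⟩
          · exact Or.inr ⟨hy, h2, by omega, by omega⟩
    have h2 := Finset.card_le_card hsub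
    have h3 := Finset.card_union_le {a} ((X.filter (fun y => s i y < s i a)) ∪
        ((X.filter (fun y => s j y < s j a)) ∪
        (X.filter (fun y => y ≠ a ∧ s i a ≤ s i y ∧ s j a ≤ s j y))))
    have h4 := Finset.card_union_le (X.filter (fun y => s i y < s i a))
        ((X.filter (fun y => s j y < s j a)) ∪
        (X.filter (fun y => y ≠ a ∧ s i a ≤ s i y ∧ s j a ≤ s j y)))
    have h5 := Finset.card_union_le (X.filter (fun y => s j y < s j a))
        (X.filter (fun y => y ≠ a ∧ s i a ≤ s i y ∧ s j a ≤ s j y))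
    rw [Finset.card_singleton] at h3
    have e1 : rr X (s i) a = (X.filter (fun y => s i y < s i a)).card := rfl
    have e2 : rr X (s j) a = (X.filter (fun y => s j y < s j a)).card := rfl
    omega
  have hlow : ∀ i : Fin 3, 7 * q + 1 ≤ (X.filter (fun a => rr X (s i) a ≤ 7 * q)).card :=
    fun i => low_card X (s i) (7 * q) (by omega)
  -- intersection with `G`
  have hG2 : ∀ T ⊆ X, T.card ≤ (T ∩ G).card + 3 * q := by
    intro T hT
    have h1 : T ⊆ (T ∩ G) ∪ (X \ G) := by
      intro y hy
      by_cases h : y ∈ G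
      · exact Finset.mem_union_left _ (Finset.mem_inter.2 ⟨hy, h⟩)
      · exact Finset.mem_union_right _ (Finset.mem_sdiff.2 ⟨hT hy, h⟩)
    have h2 := Finset.card_le_card h1
    have h3 := Finset.card_union_le (T ∩ G) (X \ G)
    omega
  have a0 := hG2 (X.filter (fun a => rr X (s 0) a ≤ 7 * q)) (Finset.filter_subset _ _)
  have a2 := hG2 (X.filter (fun a => rr X (s 2) a ≤ 7 * q)) (Finset.filter_subset _ _)
  have l0 := hlow 0
  have l2 := hlow 2
  have hd : Disjoint ((X.filter (fun a => rr X (s 0) a ≤ 7 * q)) ∩ G)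
      ((X.filter (fun a => rr X (s 2) a ≤ 7 * q)) ∩ G) := by
    rw [Finset.disjoint_left]
    intro y hy hy2
    obtain ⟨h1, h2⟩ := Finset.mem_inter.1 hy
    obtain ⟨h3, h4⟩ := Finset.mem_inter.1 hy2
    have h5 := (Finset.mem_filter.1 h1).2
    have h6 := (Finset.mem_filter.1 h3).2
    have h7 := key y h2 0 2 (by decide)
    omega
  have hsub : ((X.filter (fun a => rr X (s 0) a ≤ 7 * q)) ∩ G) ∪
      ((X.filter (fun a => rr X (s 2) a ≤ 7 * q)) ∩ G) ⊆
      X.filter (fun a => X.card - (8 * q + 1) ≤ rr X (s 1) a) := by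
    intro y hy
    rcases Finset.mem_union.1 hy with h | h
    · obtain ⟨h1, h2⟩ := Finset.mem_inter.1 h
      obtain ⟨h3, h4⟩ := Finset.mem_filter.1 h1
      have h7 := key y h2 0 1 (by decide)
      exact Finset.mem_filter.2 ⟨h3, by omega⟩
    · obtain ⟨h1, h2⟩ := Finset.mem_inter.1 h
      obtain ⟨h3, h4⟩ := Finset.mem_filter.1 h1
      have h7 := key y h2 2 1 (by decide)
      exact Finset.mem_filter.2 ⟨h3, by omega⟩
  have hc := Finset.card_le_card hsub
  rw [Finset.card_union_of_disjoint hd] at hc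
  rcases high_card X (s 1) (X.card - (8 * q + 1)) with h | h
  · omega
  · rw [h, Finset.card_empty] at hc
    omega

end Pool.Agent.Helper66.MR
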