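import Pool.Agent.Helper66.MR.Pts

/-! R6 of the MR swarm: the discrete `K₄` minus a vertex, cut on the opposite triangle. -/

namespace Pool.Agent.Helper66.MR

open Classical Pool.Agent.Helper14.MR

/-- rank in the forest -/
def rk6 (n i xo xu xv xw : ℕ) : ℕ :=
  if 0 < xo then n - xo
  else if xw = 0 ∧ i + 1 ≤ xv then n + (xv - i - 1)
  else if xu = 0 then n + (n - i - 1) + xw
  else if xv = 0 then n + (n - i - 1) + n + xu
  else n + (n - i - 1) + 2 * n + xv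

/-- coordinates of the higher neighbour -/
def upf (n i xo xu xv xw : ℕ) : ℕ × ℕ × ℕ × ℕ :=
  if 0 < xo then (xo - 1, if 0 < xu then xu + 1 else 0, if 0 < xv then xv + 1 else 0,
    if 0 < xw then xw + 1 else 0)
  else if xw = 0 ∧ i + 1 ≤ xv ∧ xv < n then (0, xu - 1, xv + 1, 0)
  else if xu = 0 ∧ 0 < xv then (0, 0, xv - 1, xw + 1)
  else if xv = 0 ∧ 0 < xw then (0, xu + 1, 0, xw - 1)
  else (0, xu - 1, xv + 1, 0)

theorem rk_leg {n i xo xu xv xw : ℕ} (h : 0 < xo) : rk6 n i xo xu xv xw = n - xo := by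
  unfold rk6; rw [if_pos h]

theorem rk_hi {n i xu xv : ℕ} (h : i + 1 ≤ xv) : rk6 n i 0 xu xv 0 = n + (xv - i - 1) := by
  unfold rk6; rw [if_neg (by omega), if_pos ⟨rfl, h⟩]

theorem rk_vw {n i xv xw : ℕ} (hi : i < n) (h : xv + xw = n) :
    rk6 n i 0 0 xv xw = n + (n - i - 1) + xw := by
  unfold rk6
  rw [if_neg (by omega)]
  by_cases h1 : xw = 0 ∧ i + 1 ≤ xv
  · rw [if_pos h1]; omega
  · rw [if_neg h1, if_pos rfl]

theorem rk_wu {n i xu xw : ℕ} (h : xu + xw = n) :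
    rk6 n i 0 xu 0 xw = n + (n - i - 1) + n + xu := by
  unfold rk6
  rw [if_neg (by omega), if_neg (by omega)]
  by_cases h1 : xu = 0
  · rw [if_pos h1]; omega
  · rw [if_neg h1, if_pos rfl]

theorem rk_lo {n i xu xv : ℕ} (hi : i < n) (h : xu + xv = n) (h2 : xv ≤ i) :
    rk6 n i 0 xu xv 0 = n + (n - i - 1) + 2 * n + xv := by
  unfold rk6
  rw [if_neg (by omega), if_neg (by omega), if_neg (by omega)]
  by_cases h1 : xv = 0
  · rw [if_pos h1]; omega
  · rw [if_neg h1]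

theorem rk_ge {n i xu xv xw : ℕ} : n ≤ rk6 n i 0 xu xv xw := by
  unfold rk6
  rw [if_neg (by omega)]
  split_ifs <;> omega

/-- an upward step in coordinates -/
def Step (n i xo xu xv xw yo yu yv yw : ℕ) : Prop :=
  (yo, yu, yv, yw) = upf n i xo xu xv xw ∧ rk6 n i xo xu xv xw < rk6 n i yo yu yv yw

theorem step_leg_u {n i xo xu xv xw yo yu yv yw : ℕ} (hs : xo + xu + xv + xw = n) (hxo : xo < n)
    (h : Mv xo xu xv xw yo yu yv yw) : Step n i xo xu xv xw yo yu yv yw := by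
  obtain ⟨e1, e2, e3, e4, e5, e6⟩ := h
  subst e1 e2 e3 e4 e5 e6
  refine ⟨?_, ?_⟩
  · unfold upf
    rw [if_pos (by omega), if_pos (by omega), if_neg (by omega)]
    simp
  · rw [rk_leg (by omega)]
    rcases Nat.eq_zero_or_pos yo with h0 | h0
    · subst h0
      have := rk_ge (n := n) (i := i) (xu := xu + 1) (xv := 0) (xw := 0)
      omega
    · rw [rk_leg h0]; omega

theorem step_leg_v {n i xo xu xv xw yo yu yv yw : ℕ} (hs : xo + xu + xv + xw = n) (hxo : xo < n)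
    (h : Mv xo xv xu xw yo yv yu yw) : Step n i xo xu xv xw yo yu yv yw := by
  obtain ⟨e1, e2, e3, e4, e5, e6⟩ := h
  subst e1 e2 e3 e4 e5 e6
  refine ⟨?_, ?_⟩
  · unfold upf
    rw [if_pos (by omega), if_neg (by omega), if_pos (by omega)]
    simp
  · rw [rk_leg (by omega)]
    rcases Nat.eq_zero_or_pos yo with h0 | h0
    · subst h0
      have := rk_ge (n := n) (i := i) (xu := 0) (xv := xv + 1) (xw := 0)
      omega
    · rw [rk_leg h0]; omega

theorem step_leg_w {n i xo xu xv xw yo yu yv yw : ℕ} (hs : xo + xu + xv + xw = n) (hxo : xo < n)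
    (h : Mv xo xw xu xv yo yw yu yv) : Step n i xo xu xv xw yo yu yv yw := by
  obtain ⟨e1, e2, e3, e4, e5, e6⟩ := h
  subst e1 e2 e3 e4 e5 e6
  refine ⟨?_, ?_⟩
  · unfold upf
    rw [if_pos (by omega), if_neg (by omega)]
    simp
    omega
  · rw [rk_leg (by omega)]
    rcases Nat.eq_zero_or_pos yo with h0 | h0
    · subst h0
      have := rk_ge (n := n) (i := i) (xu := 0) (xv := 0) (xw := xw + 1)
      omega
    · rw [rk_leg h0]; omega

theorem step_uv {n i xo xu xv xw yo yu yv yw : ℕ} (hi : i < n) (hs : xo + xu + xv + xw = n)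
    (c : ¬ (xu + xv = n ∧ xv = i ∧ yu + yv = n ∧ yv = i + 1))
    (h : Mv xu xv xo xw yu yv yo yw) : Step n i xo xu xv xw yo yu yv yw := by
  obtain ⟨e1, e2, e3, e4, e5, e6⟩ := h
  subst e1 e2 e3 e4 e5 e6
  have hc : xv ≠ i := by omega
  rcases lt_or_gt_of_ne hc with h1 | h1
  · refine ⟨?_, ?_⟩
    · unfold upf
      rw [if_neg (by omega), if_neg (by omega), if_neg (by omega), if_neg (by omega)]
      simp
    · rw [rk_lo hi (by omega) (by omega), rk_lo hi (by omega) (by omega)]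
      omega
  · refine ⟨?_, ?_⟩
    · unfold upf
      rw [if_neg (by omega), if_pos (by omega)]
      simp
    · rw [rk_hi (by omega), rk_hi (by omega)]
      omega

theorem step_vw {n i xo xu xv xw yo yu yv yw : ℕ} (hi : i < n) (hs : xo + xu + xv + xw = n)
    (h : Mv xv xw xo xu yv yw yo yu) : Step n i xo xu xv xw yo yu yv yw := by
  obtain ⟨e1, e2, e3, e4, e5, e6⟩ := h
  subst e1 e2 e3 e4 e5 e6
  refine ⟨?_, ?_⟩
  · unfold upf
    rw [if_neg (by omega), if_neg (by omega), if_pos (by omega)]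
    simp
  · rw [rk_vw hi (by omega), rk_vw hi (by omega)]
    omega

theorem step_wu {n i xo xu xv xw yo yu yv yw : ℕ} (hs : xo + xu + xv + xw = n)
    (h : Mv xw xu xo xv yw yu yo yv) : Step n i xo xu xv xw yo yu yv yw := by
  obtain ⟨e1, e2, e3, e4, e5, e6⟩ := h
  subst e1 e2 e3 e4 e5 e6
  refine ⟨?_, ?_⟩
  · unfold upf
    rw [if_neg (by omega), if_neg (by omega), if_neg (by omega), if_pos (by omega)]
    simp
  · rw [rk_wu (by omega), rk_wu (by omega)]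
    omega

theorem Mv.swap {xa xb xc xd ya yb yc yd : ℕ} (h : Mv xa xb xc xd ya yb yc yd) :
    Mv yb ya yc yd xb xa xc xd := by
  obtain ⟨e1, e2, e3, e4, e5, e6⟩ := h
  exact ⟨e2, e1, e4, e3, e6, e5⟩

/-- the relation of the cut graph -/
def R6rel {n : ℕ} (o u v : Fin 4) (i : ℕ) (x y : Pt n) : Prop :=
  Adj x y ∧ x.1 o < n ∧ y.1 o < n ∧
    ¬ (x.1 u + x.1 v = n ∧ x.1 v = i ∧ y.1 u + y.1 v = n ∧ y.1 v = i + 1) ∧
    ¬ (y.1 u + y.1 v = n ∧ y.1 v = i ∧ x.1 u + x.1 v = n ∧ x.1 v = i + 1)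

theorem step_or {n : ℕ} {o u v w : Fin 4} (h : Dist o u v w) {i : ℕ} (hi : i < n) {x y : Pt n}
    (hxy : R6rel o u v i x y) :
    Step n i (x.1 o) (x.1 u) (x.1 v) (x.1 w) (y.1 o) (y.1 u) (y.1 v) (y.1 w) ∨
    Step n i (y.1 o) (y.1 u) (y.1 v) (y.1 w) (x.1 o) (x.1 u) (x.1 v) (x.1 w) := by
  obtain ⟨ha, hxo, hyo, c1, c2⟩ := hxy
  have sx := pt_sum h x
  have sy := pt_sum h y
  rcases adj_cases h ha with h | h | h | h | h | h | h | h | h | h | h | h
  · exact Or.inl (step_leg_u sx hxo h)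
  · exact Or.inl (step_leg_v sx hxo h)
  · exact Or.inl (step_leg_w sx hxo h)
  · exact Or.inr (step_leg_u sy hyo h.swap)
  · exact Or.inl (step_uv hi sx c1 h)
  · exact Or.inr (step_wu sy h.swap)
  · exact Or.inr (step_leg_v sy hyo h.swap)
  · exact Or.inr (step_uv hi sy c2 h.swap)
  · exact Or.inl (step_vw hi sx h)
  · exact Or.inr (step_leg_w sy hyo h.swap)
  · exact Or.inl (step_wu sx h)
  · exact Or.inr (step_vw hi sy h.swap)

theorem R6 {A : Type} {n : ℕ} (o u v w : Fin 4) (h : Dist o u v w) (i : ℕ) (hi : i < n)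
    (par : A → Finset (Set (Pt n))) (hpar : ∀ a, Packing Adj (par a))
    (ho : ∀ a, ∀ Q ∈ par a, ∀ x ∈ Q, x.1 o < n)
    (hcut : ∀ a, ∀ Q ∈ par a, ∀ x ∈ Q, ∀ y ∈ Q,
      ¬ (x.1 u + x.1 v = n ∧ x.1 v = i ∧ y.1 u + y.1 v = n ∧ y.1 v = i + 1))
    (S : Finset A) (hcard : ∀ a ∈ S, S.card ≤ (par a).card) : Serv par S := by
  refine R5 (R6rel o u v i) (fun x => rk6 n i (x.1 o) (x.1 u) (x.1 v) (x.1 w)) (5 * n) ?_ ?_ ?_ ?_
    par ?_ S hcard
  · intro x
    have h1 := pt_sum h x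
    show rk6 n i (x.1 o) (x.1 u) (x.1 v) (x.1 w) ≤ 5 * n
    unfold rk6
    split_ifs <;> omega
  · intro x y hxy
    exact ⟨Adj.symm' hxy.1, hxy.2.2.1, hxy.2.1, hxy.2.2.2.2, hxy.2.2.2.1⟩
  · intro x y hxy
    rcases step_or h hi hxy with h1 | h1
    · exact ne_of_lt h1.2
    · exact ne_of_gt h1.2
  · intro x y z hxy hxz h1 h2
    have u1 : Step n i (x.1 o) (x.1 u) (x.1 v) (x.1 w) (y.1 o) (y.1 u) (y.1 v) (y.1 w) := by
      rcases step_or h hi hxy with h3 | h3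
      · exact h3
      · exact absurd h1 (not_lt.2 h3.2.le)
    have u2 : Step n i (x.1 o) (x.1 u) (x.1 v) (x.1 w) (z.1 o) (z.1 u) (z.1 v) (z.1 w) := by
      rcases step_or h hi hxz with h3 | h3
      · exact h3
      · exact absurd h2 (not_lt.2 h3.2.le)
    have e := u1.1.trans u2.1.symm
    simp only [Prod.mk.injEq] at e
    exact pt_ext h e.1 e.2.1 e.2.2.1 e.2.2.2
  · intro a
    refine ⟨?_, (hpar a).ne, (hpar a).disj⟩
    intro Q hQ W hW hcl
    refine (hpar a).conn Q hQ W hW ?_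
    intro x hx hxW y hy hxy
    exact hcl x hx hxW y hy ⟨hxy, ho a Q hQ x hx, ho a Q hQ y hy, hcut a Q hQ x hx y hy,
      hcut a Q hQ y hy x hx⟩

end Pool.Agent.Helper66.MR
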