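import Pool.Agent.Helper66.MR.R5

/-! Points of the discrete `K₄` in coordinates `o u v w`. -/

namespace Pool.Agent.Helper66.MR

open Classical Pool.Agent.Helper14.MR

theorem univ_eq {o u v w : Fin 4} (h : Dist o u v w) :
    (Finset.univ : Finset (Fin 4)) = {o, u, v, w} := by
  symm
  apply Finset.eq_univ_of_card
  rw [Finset.card_insert_of_notMem, Finset.card_insert_of_notMem, Finset.card_insert_of_notMem,
    Finset.card_singleton]
  · rfl
  · simp [h.vw]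
  · simp [h.uv, h.uw]
  · simp [h.ou, h.ov, h.ow]

theorem mem4 {o u v w : Fin 4} (h : Dist o u v w) (a : Fin 4) : a = o ∨ a = u ∨ a = v ∨ a = w := by
  have : a ∈ (Finset.univ : Finset (Fin 4)) := Finset.mem_univ a
  rw [univ_eq h] at this
  simpa using this

theorem pt_sum {n : ℕ} {o u v w : Fin 4} (h : Dist o u v w) (x : Pt n) :
    x.1 o + x.1 u + x.1 v + x.1 w = n := by
  have h1 : ∑ a : Fin 4, x.1 a = n := by
    rw [Fin.sum_univ_four]
    exact x.2.sum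
  rw [univ_eq h] at h1
  rw [Finset.sum_insert, Finset.sum_insert, Finset.sum_insert, Finset.sum_singleton] at h1
  · omega
  · simp [h.vw]
  · simp [h.uv, h.uw]
  · simp [h.ou, h.ov, h.ow]

theorem pt_ext {n : ℕ} {o u v w : Fin 4} (h : Dist o u v w) {x y : Pt n}
    (h1 : x.1 o = y.1 o) (h2 : x.1 u = y.1 u) (h3 : x.1 v = y.1 v) (h4 : x.1 w = y.1 w) :
    x = y := by
  apply Subtype.ext
  funext a
  rcases mem4 h a with rfl | rfl | rfl | rfl
  · exact h1
  · exact h2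
  · exact h3
  · exact h4

/-- the support condition in coordinates -/
theorem pt_supp {n : ℕ} {o u v w : Fin 4} (h : Dist o u v w) (x : Pt n) :
    (x.1 o = 0 ∨ x.1 u = 0 ∨ x.1 v = 0) ∧ (x.1 o = 0 ∨ x.1 u = 0 ∨ x.1 w = 0) ∧
    (x.1 o = 0 ∨ x.1 v = 0 ∨ x.1 w = 0) ∧ (x.1 u = 0 ∨ x.1 v = 0 ∨ x.1 w = 0) :=
  ⟨x.2.supp o u v h.ou h.ov h.uv, x.2.supp o u w h.ou h.ow h.uw,
    x.2.supp o v w h.ov h.ow h.vw, x.2.supp u v w h.uv h.uw h.vw⟩

/-- one unit moves from the first to the second coordinate, the last two are zero -/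
def Mv (xa xb xc xd ya yb yc yd : ℕ) : Prop :=
  xa = ya + 1 ∧ yb = xb + 1 ∧ xc = 0 ∧ yc = 0 ∧ xd = 0 ∧ yd = 0

theorem adj_cases {n : ℕ} {o u v w : Fin 4} (h : Dist o u v w) {x y : Pt n} (hxy : Adj x y) :
    Mv (x.1 o) (x.1 u) (x.1 v) (x.1 w) (y.1 o) (y.1 u) (y.1 v) (y.1 w) ∨
    Mv (x.1 o) (x.1 v) (x.1 u) (x.1 w) (y.1 o) (y.1 v) (y.1 u) (y.1 w) ∨
    Mv (x.1 o) (x.1 w) (x.1 u) (x.1 v) (y.1 o) (y.1 w) (y.1 u) (y.1 v) ∨
    Mv (x.1 u) (x.1 o) (x.1 v) (x.1 w) (y.1 u) (y.1 o) (y.1 v) (y.1 w) ∨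
    Mv (x.1 u) (x.1 v) (x.1 o) (x.1 w) (y.1 u) (y.1 v) (y.1 o) (y.1 w) ∨
    Mv (x.1 u) (x.1 w) (x.1 o) (x.1 v) (y.1 u) (y.1 w) (y.1 o) (y.1 v) ∨
    Mv (x.1 v) (x.1 o) (x.1 u) (x.1 w) (y.1 v) (y.1 o) (y.1 u) (y.1 w) ∨
    Mv (x.1 v) (x.1 u) (x.1 o) (x.1 w) (y.1 v) (y.1 u) (y.1 o) (y.1 w) ∨
    Mv (x.1 v) (x.1 w) (x.1 o) (x.1 u) (y.1 v) (y.1 w) (y.1 o) (y.1 u) ∨
    Mv (x.1 w) (x.1 o) (x.1 u) (x.1 v) (y.1 w) (y.1 o) (y.1 u) (y.1 v) ∨
    Mv (x.1 w) (x.1 u) (x.1 o) (x.1 v) (y.1 w) (y.1 u) (y.1 o) (y.1 v) ∨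
    Mv (x.1 w) (x.1 v) (x.1 o) (x.1 u) (y.1 w) (y.1 v) (y.1 o) (y.1 u) := by
  obtain ⟨a, b, hab, h1, h2, h3⟩ := hxy
  have hou := h.ou
  have hov := h.ov
  have how := h.ow
  have huv := h.uv
  have huw := h.uw
  have hvw := h.vw
  have z := fun c (h4 : c ≠ a) (h5 : c ≠ b) => h3 c h4 h5
  rcases mem4 h a with ha | ha | ha | ha <;> rcases mem4 h b with hb | hb | hb | hb
  · exact absurd (ha.trans hb.symm) hab
  · subst ha hb
    exact Or.inl ⟨h1, h2, (z v hov.symm huv.symm).1, (z v hov.symm huv.symm).2,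
      (z w how.symm huw.symm).1, (z w how.symm huw.symm).2⟩
  · subst ha hb
    exact Or.inr (Or.inl ⟨h1, h2, (z u hou.symm huv).1, (z u hou.symm huv).2,
      (z w how.symm hvw.symm).1, (z w how.symm hvw.symm).2⟩)
  · subst ha hb
    exact Or.inr (Or.inr (Or.inl ⟨h1, h2, (z u hou.symm huw).1, (z u hou.symm huw).2,
      (z v hov.symm hvw).1, (z v hov.symm hvw).2⟩))
  · subst ha hb
    exact Or.inr (Or.inr (Or.inr (Or.inl ⟨h1, h2, (z v huv.symm hov.symm).1,
      (z v huv.symm hov.symm).2, (z w huw.symm how.symm).1, (z w huw.symm how.symm).2⟩)))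
  · exact absurd (ha.trans hb.symm) hab
  · subst ha hb
    exact Or.inr (Or.inr (Or.inr (Or.inr (Or.inl ⟨h1, h2, (z o hou hov).1, (z o hou hov).2,
      (z w huw.symm hvw.symm).1, (z w huw.symm hvw.symm).2⟩))))
  · subst ha hb
    exact Or.inr (Or.inr (Or.inr (Or.inr (Or.inr (Or.inl ⟨h1, h2, (z o hou how).1,
      (z o hou how).2, (z v huv.symm hvw).1, (z v huv.symm hvw).2⟩)))))
  · subst ha hb
    exact Or.inr (Or.inr (Or.inr (Or.inr (Or.inr (Or.inr (Or.inl ⟨h1, h2, (z u huv hou.symm).1,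
      (z u huv hou.symm).2, (z w hvw.symm how.symm).1, (z w hvw.symm how.symm).2⟩))))))
  · subst ha hb
    exact Or.inr (Or.inr (Or.inr (Or.inr (Or.inr (Or.inr (Or.inr (Or.inl ⟨h1, h2,
      (z o hov hou).1, (z o hov hou).2, (z w hvw.symm huw.symm).1,
      (z w hvw.symm huw.symm).2⟩)))))))
  · exact absurd (ha.trans hb.symm) hab
  · subst ha hb
    exact Or.inr (Or.inr (Or.inr (Or.inr (Or.inr (Or.inr (Or.inr (Or.inr (Or.inl ⟨h1, h2,
      (z o hov how).1, (z o hov how).2, (z u huv huw).1, (z u huv huw).2⟩))))))))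
  · subst ha hb
    exact Or.inr (Or.inr (Or.inr (Or.inr (Or.inr (Or.inr (Or.inr (Or.inr (Or.inr (Or.inl ⟨h1, h2,
      (z u huw hou.symm).1, (z u huw hou.symm).2, (z v hvw hov.symm).1,
      (z v hvw hov.symm).2⟩)))))))))
  · subst ha hb
    exact Or.inr (Or.inr (Or.inr (Or.inr (Or.inr (Or.inr (Or.inr (Or.inr (Or.inr (Or.inr (Or.inl
      ⟨h1, h2, (z o how hou).1, (z o how hou).2, (z v hvw huv.symm).1,
      (z v hvw huv.symm).2⟩))))))))))
  · subst ha hb
    exact Or.inr (Or.inr (Or.inr (Or.inr (Or.inr (Or.inr (Or.inr (Or.inr (Or.inr (Or.inr (Or.inr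
      ⟨h1, h2, (z o how hov).1, (z o how hov).2, (z u huw huv).1, (z u huw huv).2⟩))))))))))
  · exact absurd (ha.trans hb.symm) hab

theorem Adj.symm' {n : ℕ} {x y : Pt n} (h : Adj x y) : Adj y x := by
  obtain ⟨a, b, hab, h1, h2, h3⟩ := h
  exact ⟨b, a, hab.symm, h2, h1, fun c h4 h5 => ⟨(h3 c h5 h4).2, (h3 c h5 h4).1⟩⟩

/-- the point at distance `i` from `u` on the edge `u v` -/
noncomputable def pnt (n : ℕ) (u v : Fin 4) (huv : u ≠ v) (i : ℕ) (hi : i ≤ n) : Pt n :=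
  ⟨fun c => if c = u then n - i else if c = v then i else 0, by
    constructor
    · have h1 : ∑ c : Fin 4, (if c = u then n - i else if c = v then i else 0) = n := by
        have h2 : ∀ c : Fin 4, (if c = u then n - i else if c = v then i else 0) =
            (if c = u then n - i else 0) + (if c = v then i else 0) := by
          intro c
          by_cases h3 : c = u
          · subst h3
            simp [huv]
          · simp [h3]
        simp only [h2]
        rw [Finset.sum_add_distrib, Finset.sum_ite_eq' Finset.univ u (fun _ => n - i),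
          Finset.sum_ite_eq' Finset.univ v (fun _ => i)]
        simp only [Finset.mem_univ, if_true]
        omega
      rw [Fin.sum_univ_four] at h1
      exact h1
    · intro a b c hab hac hbc
      by_cases ha : a = u
      · subst ha
        by_cases hb : b = v
        · subst hb
          right; right
          simp [Ne.symm hac, Ne.symm hbc]
        · right; left
          simp [Ne.symm hab, hb]
      · by_cases ha2 : a = v
        · subst ha2
          by_cases hb : b = u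
          · subst hb
            right; right
            simp [Ne.symm hac, Ne.symm hbc]
          · right; left
            simp [Ne.symm hab, hb]
        · left
          simp [ha, ha2]⟩

theorem pnt_u {n : ℕ} {u v : Fin 4} (huv : u ≠ v) {i : ℕ} (hi : i ≤ n) :
    (pnt n u v huv i hi).1 u = n - i := by
  simp [pnt]

theorem pnt_v {n : ℕ} {u v : Fin 4} (huv : u ≠ v) {i : ℕ} (hi : i ≤ n) :
    (pnt n u v huv i hi).1 v = i := by
  simp [pnt, huv.symm]

theorem pnt_other {n : ℕ} {u v : Fin 4} (huv : u ≠ v) {i : ℕ} (hi : i ≤ n) {c : Fin 4}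
    (h1 : c ≠ u) (h2 : c ≠ v) : (pnt n u v huv i hi).1 c = 0 := by
  simp [pnt, h1, h2]

theorem pnt_adj {n : ℕ} {u v : Fin 4} (huv : u ≠ v) {i : ℕ} (hi : i < n) :
    Adj (pnt n u v huv i hi.le) (pnt n u v huv (i + 1) hi) := by
  refine ⟨u, v, huv, ?_, ?_, ?_⟩
  · rw [pnt_u, pnt_u]; omega
  · rw [pnt_v, pnt_v]
  · intro c h1 h2
    exact ⟨pnt_other huv _ h1 h2, pnt_other huv _ h1 h2⟩

/-- every label is part of a labelling -/
theorem exists_dist (o u : Fin 4) (h : o ≠ u) : ∃ v w, Dist o u v w := by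
  have : ∃ v w : Fin 4, o ≠ u ∧ o ≠ v ∧ o ≠ w ∧ u ≠ v ∧ u ≠ w ∧ v ≠ w := by
    revert o u h
    decide
  obtain ⟨v, w, h1, h2, h3, h4, h5, h6⟩ := this
  exact ⟨v, w, ⟨h1, h2, h3, h4, h5, h6⟩⟩

end Pool.Agent.Helper66.MR
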