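import Pool.Agent.Helper14.MR.Defs

/-! R5 of the MR swarm: full service in a rooted forest. -/

namespace Pool.Agent.Helper66.MR

open Classical Pool.Agent.Helper14.MR

theorem Packing.filter {Ω : Type} {R : Ω → Ω → Prop} {par : Finset (Set Ω)} (h : Packing R par)
    (p : Set Ω → Prop) [DecidablePred p] : Packing R (par.filter p) where
  conn Q hQ := h.conn Q (Finset.mem_filter.1 hQ).1
  ne Q hQ := h.ne Q (Finset.mem_filter.1 hQ).1
  disj Q hQ Q' hQ' hne := h.disj Q (Finset.mem_filter.1 hQ).1 Q' (Finset.mem_filter.1 hQ').1 hne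

/-- at most one part of a packing contains a given point -/
theorem card_filter_mem_le {Ω : Type} {R : Ω → Ω → Prop} {par : Finset (Set Ω)}
    (h : Packing R par) (q : Ω) (p : Set Ω → Prop) [DecidablePred p]
    (hp : ∀ Q ∈ par, p Q → q ∈ Q) :
    (par.filter p).card ≤ 1 := by
  rw [Finset.card_le_one]
  intro Q hQ Q' hQ'
  by_contra hne
  obtain ⟨h1, h2⟩ := Finset.mem_filter.1 hQ
  obtain ⟨h3, h4⟩ := Finset.mem_filter.1 hQ'
  exact Set.disjoint_left.1 (h.disj Q h1 Q' h3 hne) (hp Q h1 h2) (hp Q' h3 h4)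

/-- upward steps inside `Q` -/
def Up {Ω : Type} (R : Ω → Ω → Prop) (rk : Ω → ℕ) (Q : Set Ω) (p q : Ω) : Prop :=
  R p q ∧ rk p < rk q ∧ q ∈ Q

theorem up_chain {Ω : Type} (R : Ω → Ω → Prop) (rk : Ω → ℕ)
    (hsymm : ∀ x y, R x y → R y x)
    (hne : ∀ x y, R x y → rk x ≠ rk y)
    (hup : ∀ x y z, R x y → R x z → rk x < rk y → rk x < rk z → y = z)
    (Q : Set Ω) (hQ : Conn R Q) (x : Ω) (hx : x ∈ Q)
    (hno : ∀ y ∈ Q, R x y → ¬ rk x < rk y) :
    ∀ z ∈ Q, Relation.ReflTransGen (Up R rk Q) z x := by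
  have key := hQ {z | Relation.ReflTransGen (Up R rk Q) z x} ⟨x, hx, Relation.ReflTransGen.refl⟩ ?_
  · intro z hz
    exact key hz
  · intro z hz hzW y hy hzy
    rcases lt_or_gt_of_ne (hne z y hzy) with hlt | hgt
    · -- going up
      rcases Relation.ReflTransGen.cases_head hzW with h | ⟨c, hc, hcx⟩
      · subst h
        exact absurd hlt (hno y hy hzy)
      · have : y = c := hup z y c hzy hc.1 hlt hc.2.1
        subst this
        exact hcx
    · exact Relation.ReflTransGen.head ⟨hsymm _ _ hzy, hgt, hz⟩ hzW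

theorem rk_le_of_chain {Ω : Type} (R : Ω → Ω → Prop) (rk : Ω → ℕ) (Q : Set Ω) {z x : Ω}
    (h : Relation.ReflTransGen (Up R rk Q) z x) : rk z ≤ rk x := by
  induction h with
  | refl => exact le_refl _
  | tail _ h2 ih => exact ih.trans h2.2.1.le

/-- maximal rank -/
noncomputable def mx {Ω : Type} (rk : Ω → ℕ) (Q : Set Ω) : ℕ := sSup (rk '' Q)

theorem le_mx {Ω : Type} (rk : Ω → ℕ) (B : ℕ) (hB : ∀ x, rk x ≤ B) (Q : Set Ω) {x : Ω}
    (hx : x ∈ Q) : rk x ≤ mx rk Q :=
  le_csSup ⟨B, by rintro _ ⟨y, _, rfl⟩; exact hB y⟩ ⟨x, hx, rfl⟩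

theorem exists_mx {Ω : Type} (rk : Ω → ℕ) (B : ℕ) (hB : ∀ x, rk x ≤ B) (Q : Set Ω)
    (hQ : Q.Nonempty) : ∃ x ∈ Q, rk x = mx rk Q := by
  have h := Nat.sSup_mem (s := rk '' Q) (hQ.image rk) ⟨B, by rintro _ ⟨y, _, rfl⟩; exact hB y⟩
  obtain ⟨x, hx, h2⟩ := h
  exact ⟨x, hx, h2⟩

theorem top_mem {Ω : Type} (R : Ω → Ω → Prop) (rk : Ω → ℕ) (B : ℕ) (hB : ∀ x, rk x ≤ B)
    (hsymm : ∀ x y, R x y → R y x)
    (hne : ∀ x y, R x y → rk x ≠ rk y)
    (hup : ∀ x y z, R x y → R x z → rk x < rk y → rk x < rk z → y = z)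
    (Q Q' : Set Ω) (hQ : Conn R Q) (hQ' : Conn R Q') (q : Ω) (hq : q ∈ Q)
    (hqr : rk q = mx rk Q) (hle : mx rk Q ≤ mx rk Q') (hmeet : ∃ x ∈ Q, x ∈ Q') : q ∈ Q' := by
  -- a common point of maximal rank
  have hne2 : (Q ∩ Q').Nonempty := by
    obtain ⟨x, h1, h2⟩ := hmeet
    exact ⟨x, h1, h2⟩
  obtain ⟨x, ⟨hxQ, hxQ'⟩, hx⟩ := exists_mx rk B hB (Q ∩ Q') hne2
  have hchain := up_chain R rk hsymm hne hup Q hQ q hq
    (fun y hy _ => by
      have := le_mx rk B hB Q hy
      omega) x hxQ
  rcases Relation.ReflTransGen.cases_head hchain with h | ⟨c, hc, hcq⟩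
  · rw [← h]; exact hxQ'
  · exfalso
    have hcq' := rk_le_of_chain R rk Q hcq
    have hxlt : rk x < mx rk Q' := by
      have := hc.2.1
      omega
    -- an upward neighbour inside `Q'`
    have : ∃ y ∈ Q', R x y ∧ rk x < rk y := by
      by_contra hcon
      push_neg at hcon
      have h3 := up_chain R rk hsymm hne hup Q' hQ' x hxQ'
        (fun y hy hxy h4 => absurd (hcon y hy hxy) (not_le.2 h4))
      obtain ⟨t, ht, htm⟩ := exists_mx rk B hB Q' ⟨x, hxQ'⟩
      have h5 := rk_le_of_chain R rk Q' (h3 t ht)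
      omega
    obtain ⟨y, hy, hxy, hlt⟩ := this
    have hyc : y = c := hup x y c hxy hc.1 hlt hc.2.1
    subst hyc
    have h6 := le_mx rk B hB (Q ∩ Q') (x := y) ⟨hc.2.2, hy⟩
    omega

theorem R5 {A Ω : Type} (R : Ω → Ω → Prop) (rk : Ω → ℕ) (B : ℕ) (hB : ∀ x, rk x ≤ B)
    (hsymm : ∀ x y, R x y → R y x)
    (hne : ∀ x y, R x y → rk x ≠ rk y)
    (hup : ∀ x y z, R x y → R x z → rk x < rk y → rk x < rk z → y = z)
    (par : A → Finset (Set Ω)) (hpar : ∀ a, Packing R (par a))
    (S : Finset A) (hcard : ∀ a ∈ S, S.card ≤ (par a).card) : Serv par S := by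
  have main : ∀ (N : ℕ) (S : Finset A) (par : A → Finset (Set Ω)), S.card = N →
      (∀ a, Packing R (par a)) → (∀ a ∈ S, S.card ≤ (par a).card) → Serv par S := by
    intro N
    induction N with
    | zero =>
      intro S par hS _ _
      have : S = ∅ := Finset.card_eq_zero.1 hS
      subst this
      exact ⟨fun _ => ∅, by simp, by simp⟩
    | succ N ih =>
      intro S par hS hpar hcard
      have hSne : S.Nonempty := by
        rw [← Finset.card_pos]; omega
      have hUne : (S.biUnion par).Nonempty := by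
        obtain ⟨a, ha⟩ := hSne
        have h1 := hcard a ha
        have h2 : (par a).Nonempty := by
          rw [← Finset.card_pos]; omega
        obtain ⟨Q, hQ⟩ := h2
        exact ⟨Q, Finset.mem_biUnion.2 ⟨a, ha, hQ⟩⟩
      obtain ⟨Q, hQU, hQmin⟩ := Finset.exists_min_image (S.biUnion par) (mx rk) hUne
      obtain ⟨a, ha, hQ⟩ := Finset.mem_biUnion.1 hQU
      obtain ⟨q, hq, hqr⟩ := exists_mx rk B hB Q ((hpar a).ne Q hQ)
      set par' : A → Finset (Set Ω) := fun b => (par b).filter (fun Q' => Disjoint Q Q')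
        with hpar'
      have hP' : ∀ b, Packing R (par' b) := fun b => Packing.filter (hpar b) _
      have hcard' : ∀ b ∈ S.erase a, (S.erase a).card ≤ (par' b).card := by
        intro b hb
        have hbS := Finset.mem_of_mem_erase hb
        have h1 : (S.erase a).card = N := by
          rw [Finset.card_erase_of_mem ha]; omega
        have h2 := hcard b hbS
        have h3 : ((par b).filter (fun Q' => ¬ Disjoint Q Q')).card ≤ 1 := by
          apply card_filter_mem_le (hpar b) q
          intro Q' hQ' hnd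
          refine top_mem R rk B hB hsymm hne hup Q Q' ((hpar a).conn Q hQ)
            ((hpar b).conn Q' hQ') q hq hqr
            (hQmin Q' (Finset.mem_biUnion.2 ⟨b, hbS, hQ'⟩)) ?_
          rw [Set.not_disjoint_iff] at hnd
          obtain ⟨x, h1, h2⟩ := hnd
          exact ⟨x, h1, h2⟩
        have h4 := Finset.card_filter_add_card_filter_not (s := par b)
          (p := fun Q' => Disjoint Q Q')
        have h5 : (par' b).card = ((par b).filter (fun Q' => Disjoint Q Q')).card := rfl
        omega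
      obtain ⟨f, hf1, hf2⟩ := ih (S.erase a) par' (by rw [Finset.card_erase_of_mem ha]; omega)
        hP' hcard'
      refine ⟨Function.update f a Q, ?_, ?_⟩
      · intro b hb
        by_cases hba : b = a
        · subst hba
          rw [Function.update_self]
          exact hQ
        · rw [Function.update_of_ne hba]
          exact (Finset.mem_filter.1 (hf1 b (Finset.mem_erase.2 ⟨hba, hb⟩))).1
      · intro b hb c hc hbc
        by_cases hba : b = a
        · subst hba
          have hcb : c ≠ b := fun h => hbc h.symm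
          rw [Function.update_self, Function.update_of_ne hcb]
          exact (Finset.mem_filter.1 (hf1 c (Finset.mem_erase.2 ⟨hcb, hc⟩))).2
        · by_cases hca : c = a
          · subst hca
            rw [Function.update_self, Function.update_of_ne hba]
            exact ((Finset.mem_filter.1 (hf1 b (Finset.mem_erase.2 ⟨hba, hb⟩))).2).symm
          · rw [Function.update_of_ne hba, Function.update_of_ne hca]
            exact hf2 b (Finset.mem_erase.2 ⟨hba, hb⟩) c (Finset.mem_erase.2 ⟨hca, hc⟩) hbc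
  exact main S.card S par rfl hpar hcard

end Pool.Agent.Helper66.MR
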