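import Pool.Agent.Helper66.MR.R6

/-! R6', R7, R7' of the MR swarm. -/

namespace Pool.Agent.Helper66.MR

open Classical Pool.Agent.Helper14.MR

theorem exists_three (o : Fin 4) : ∃ a b c : Fin 4, Dist o a b c := by
  obtain ⟨a, ha⟩ : ∃ a : Fin 4, o ≠ a := by
    revert o
    decide
  obtain ⟨b, c, h⟩ := exists_dist o a ha
  exact ⟨a, b, c, h⟩

/-- a point `p` with `p o = 0` lies on an edge of the opposite triangle -/
theorem exists_edge {n : ℕ} (hn : 1 ≤ n) (o : Fin 4) (p : Pt n) (hp : p.1 o = 0) :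
    ∃ u v w : Fin 4, Dist o u v w ∧ p.1 u + p.1 v = n ∧ 0 < p.1 u := by
  obtain ⟨a, b, c, h⟩ := exists_three o
  have hs := pt_sum h p
  obtain ⟨h1, h2, h3, h4⟩ := pt_supp h p
  have d1 : Dist o a b c := h
  have d2 : Dist o b a c := ⟨h.ov, h.ou, h.ow, h.uv.symm, h.vw, h.uw⟩
  have d3 : Dist o a c b := ⟨h.ou, h.ow, h.ov, h.uw, h.uv, h.vw.symm⟩
  have d4 : Dist o c a b := ⟨h.ow, h.ou, h.ov, h.uw.symm, h.vw.symm, h.uv⟩
  have d5 : Dist o b c a := ⟨h.ov, h.ow, h.ou, h.vw, h.uv.symm, h.uw.symm⟩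
  rcases h4 with h4 | h4 | h4
  · -- `a` zero: `b`, `c`
    rcases Nat.eq_zero_or_pos (p.1 b) with h5 | h5
    · exact ⟨c, a, b, d4, by omega, by omega⟩
    · exact ⟨b, c, a, d5, by omega, h5⟩
  · rcases Nat.eq_zero_or_pos (p.1 a) with h5 | h5
    · exact ⟨c, a, b, d4, by omega, by omega⟩
    · exact ⟨a, c, b, d3, by omega, h5⟩
  · rcases Nat.eq_zero_or_pos (p.1 a) with h5 | h5
    · exact ⟨b, a, c, d2, by omega, by omega⟩
    · exact ⟨a, b, c, d1, by omega, h5⟩

theorem R6' {A : Type} {n : ℕ} (hn : 1 ≤ n) (o : Fin 4) (p : Pt n) (hp : p.1 o = 0)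
    (par : A → Finset (Set (Pt n))) (hpar : ∀ a, Packing Adj (par a))
    (ho : ∀ a, ∀ Q ∈ par a, ∀ x ∈ Q, x.1 o < n)
    (hp' : ∀ a, ∀ Q ∈ par a, p ∉ Q)
    (S : Finset A) (hcard : ∀ a ∈ S, S.card ≤ (par a).card) : Serv par S := by
  obtain ⟨u, v, w, h, h1, h2⟩ := exists_edge hn o p hp
  refine R6 o u v w h (p.1 v) (by omega) par hpar ho ?_ S hcard
  intro a Q hQ x hx y hy hc
  obtain ⟨c1, c2, c3, c4⟩ := hc
  have hs := pt_sum h x
  have hsp := pt_sum h p
  have : x = p := pt_ext h (by omega) (by omega) (by omega) (by omega)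
  subst this
  exact hp' a Q hQ hx

/-- service for a subfamily of parts -/
theorem Serv.mono {A Ω : Type} {par par' : A → Finset (Set Ω)} {S : Finset A}
    (h : Serv par' S) (hsub : ∀ a, par' a ⊆ par a) : Serv par S := by
  obtain ⟨f, h1, h2⟩ := h
  exact ⟨f, fun a ha => hsub a (h1 a ha), h2⟩

/-- the vertex `a` -/
noncomputable def vtx (n : ℕ) (a b : Fin 4) (hab : a ≠ b) : Pt n := pnt n a b hab 0 (Nat.zero_le n)

theorem eq_vtx {n : ℕ} {a b : Fin 4} (hab : a ≠ b) {x : Pt n} (hx : ¬ x.1 a < n) :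
    x = vtx n a b hab := by
  obtain ⟨c, d, h⟩ := exists_dist a b hab
  have hs := pt_sum h x
  refine pt_ext h ?_ ?_ ?_ ?_
  · rw [vtx, pnt_u]; omega
  · rw [vtx, pnt_v]; omega
  · rw [vtx, pnt_other hab _ h.ov.symm h.uv.symm]; omega
  · rw [vtx, pnt_other hab _ h.ow.symm h.uw.symm]; omega

/-- few parts are lost -/
theorem card_filter_two {Ω : Type} {R : Ω → Ω → Prop} {par : Finset (Set Ω)}
    (h : Packing R par) (q q' : Ω) (P : Set Ω → Prop) [DecidablePred P]
    (hP : ∀ Q ∈ par, ¬ P Q → q ∈ Q ∨ q' ∈ Q) : par.card ≤ (par.filter P).card + 2 := by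
  have h1 := Finset.card_filter_add_card_filter_not (s := par) (p := P)
  have h2 : par.filter (fun Q => ¬ P Q) ⊆
      (par.filter (fun Q => q ∈ Q)) ∪ (par.filter (fun Q => q' ∈ Q)) := by
    intro Q hQ
    obtain ⟨h3, h4⟩ := Finset.mem_filter.1 hQ
    rcases hP Q h3 h4 with h5 | h5
    · exact Finset.mem_union_left _ (Finset.mem_filter.2 ⟨h3, h5⟩)
    · exact Finset.mem_union_right _ (Finset.mem_filter.2 ⟨h3, h5⟩)
  have h3 := Finset.card_le_card h2
  have h4 := Finset.card_union_le (par.filter (fun Q => q ∈ Q)) (par.filter (fun Q => q' ∈ Q))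
  have h5 := card_filter_mem_le h q (fun Q => q ∈ Q) (fun Q _ hq => hq)
  have h6 := card_filter_mem_le h q' (fun Q => q' ∈ Q) (fun Q _ hq => hq)
  omega

theorem R7 {A : Type} {n : ℕ} (hn : 1 ≤ n) (par : A → Finset (Set (Pt n)))
    (hpar : ∀ a, Cut Adj (par a)) (S : Finset A) (hS : ∀ a ∈ S, S.card + 2 ≤ (par a).card) :
    Serv par S := by
  have h30 : (3 : Fin 4) ≠ 0 := by decide
  have h03 : (0 : Fin 4) ≠ 3 := by decide
  refine Serv.mono (par' := fun a => (par a).filter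
    (fun Q => (∀ x ∈ Q, x.1 3 < n) ∧ vtx n 0 3 h03 ∉ Q)) ?_ (fun a => Finset.filter_subset _ _)
  refine R6' hn 3 (vtx n 0 3 h03) ?_ _ (fun a => Packing.filter (hpar a).toPacking _) ?_ ?_ S ?_
  · rw [vtx, pnt_v]
  · intro a Q hQ x hx
    exact (Finset.mem_filter.1 hQ).2.1 x hx
  · intro a Q hQ
    exact (Finset.mem_filter.1 hQ).2.2
  · intro a ha
    have h1 := hS a ha
    have h2 := card_filter_two (hpar a).toPacking (vtx n 3 0 h30) (vtx n 0 3 h03)
      (fun Q => (∀ x ∈ Q, x.1 3 < n) ∧ vtx n 0 3 h03 ∉ Q) (by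
        intro Q hQ hn2
        by_cases h3 : vtx n 0 3 h03 ∈ Q
        · exact Or.inr h3
        · left
          by_contra h4
          apply hn2
          refine ⟨?_, h3⟩
          intro x hx
          by_contra h5
          exact h4 (eq_vtx h30 h5 ▸ hx))
    omega

/-- walking along an edge -/
theorem walk_edge {n : ℕ} {Q : Set (Pt n)} (u v : Fin 4) (huv : u ≠ v)
    (h0 : pnt n u v huv 0 (Nat.zero_le n) ∈ Q)
    (hstep : ∀ i (hi : i < n), pnt n u v huv i hi.le ∈ Q → pnt n u v huv (i + 1) hi ∈ Q) :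
    ∀ i (hi : i ≤ n), pnt n u v huv i hi ∈ Q := by
  intro i
  induction i with
  | zero => intro _; exact h0
  | succ i ih => intro hi; exact hstep i hi (ih (by omega))

/-- if no part is cut along an edge, there is at most one part -/
theorem one_part {n : ℕ} (par : Finset (Set (Pt n))) (hpar : Cut Adj par)
    (h : ∀ (u v : Fin 4) (huv : u ≠ v) (i : ℕ) (hi : i < n), ∀ Q ∈ par,
      pnt n u v huv i hi.le ∈ Q → pnt n u v huv (i + 1) hi ∈ Q) : par.card ≤ 1 := by
  have h01 : (0 : Fin 4) ≠ 1 := by decide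
  obtain ⟨Q, hQ, h0⟩ := hpar.cover (pnt n 0 1 h01 0 (Nat.zero_le n))
  -- the start of every edge at the vertex `0`
  have hstart : ∀ v (hv : (0 : Fin 4) ≠ v), pnt n 0 v hv 0 (Nat.zero_le n) ∈ Q := by
    intro v hv
    have h2 : ¬ (pnt n 0 1 h01 0 (Nat.zero_le n)).1 0 < n := by rw [pnt_u]; omega
    have h3 := eq_vtx hv h2
    rw [vtx] at h3
    rw [← h3]
    exact h0
  have hvert : ∀ u v (huv : u ≠ v), pnt n u v huv 0 (Nat.zero_le n) ∈ Q := by
    intro u v huv
    by_cases hu : (0 : Fin 4) = u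
    · subst hu
      exact hstart v huv
    · have h2 := walk_edge 0 u hu (hstart u hu) (fun i hi hm => h 0 u hu i hi Q hQ hm) n le_rfl
      have h3 : ¬ (pnt n 0 u hu n le_rfl).1 u < n := by rw [pnt_v]; omega
      have h4 := eq_vtx huv h3
      rw [vtx] at h4
      rw [← h4]
      exact h2
  have hall : ∀ x : Pt n, x ∈ Q := by
    intro x
    obtain ⟨a, b, c, hd⟩ := exists_three 0
    -- an edge containing `x`
    have hedge : ∃ u v : Fin 4, u ≠ v ∧ x.1 u + x.1 v = n := by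
      have hs := pt_sum hd x
      obtain ⟨h1, h2, h3, h4⟩ := pt_supp hd x
      by_cases g0 : x.1 0 = 0 <;> by_cases ga : x.1 a = 0 <;> by_cases gb : x.1 b = 0 <;>
        by_cases gc : x.1 c = 0
      all_goals first
        | exact ⟨0, a, hd.ou, by omega⟩
        | exact ⟨0, b, hd.ov, by omega⟩
        | exact ⟨0, c, hd.ow, by omega⟩
        | exact ⟨a, b, hd.uv, by omega⟩
        | exact ⟨a, c, hd.uw, by omega⟩
        | exact ⟨b, c, hd.vw, by omega⟩
    obtain ⟨u, v, huv, hx⟩ := hedge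
    have h2 := walk_edge u v huv (hvert u v huv) (fun i hi hm => h u v huv i hi Q hQ hm)
      (x.1 v) (by omega)
    have h3 : pnt n u v huv (x.1 v) (by omega) = x := by
      obtain ⟨c, d, hd2⟩ := exists_dist u v huv
      have hs := pt_sum hd2 x
      refine pt_ext hd2 ?_ ?_ ?_ ?_
      · rw [pnt_u]; omega
      · rw [pnt_v]
      · rw [pnt_other huv _ hd2.ov.symm hd2.uv.symm]; omega
      · rw [pnt_other huv _ hd2.ow.symm hd2.uw.symm]; omega
    rw [← h3]
    exact h2
  rw [Finset.card_le_one]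
  have hQQ : ∀ Q' ∈ par, Q' = Q := by
    intro Q' hQ'
    by_contra hne
    obtain ⟨x, hx⟩ := hpar.ne Q' hQ'
    exact Set.disjoint_left.1 (hpar.disj Q' hQ' Q hQ hne) hx (hall x)
  intro P hP P' hP'
  rw [hQQ P hP, hQQ P' hP']

theorem R7' {A : Type} {n : ℕ} (hn : 1 ≤ n) (par : A → Finset (Set (Pt n)))
    (hpar : ∀ a, Cut Adj (par a)) (F : Finset A) (b : A) (hb : b ∉ F)
    (hF : ∀ a ∈ F, F.card + 3 ≤ (par a).card) (hbc : F.card + 2 ≤ (par b).card) :
    Serv par (insert b F) := by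
  obtain ⟨u, v, huv, i, hi, Qb, hQb, hm, hm2⟩ : ∃ (u v : Fin 4) (huv : u ≠ v) (i : ℕ)
      (hi : i < n), ∃ Q ∈ par b, pnt n u v huv i hi.le ∈ Q ∧ pnt n u v huv (i + 1) hi ∉ Q := by
    by_contra hcon
    push_neg at hcon
    have h1 := one_part (par b) (hpar b) (fun u v huv i hi Q hQ hm => hcon u v huv i hi Q hQ hm)
    omega
  -- the other two labels
  obtain ⟨o, w, h⟩ : ∃ o w : Fin 4, Dist o u v w := by
    obtain ⟨c, d, h⟩ := exists_dist u v huv
    exact ⟨c, d, ⟨h.ov.symm, h.uv.symm, h.vw, h.ou, h.ow, h.uw⟩⟩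
  have how : o ≠ w := h.ow
  set p := pnt n u v huv i hi.le with hp
  set p' := pnt n u v huv (i + 1) hi with hp'
  have hcard : (insert b F).card = F.card + 1 := Finset.card_insert_of_notMem hb
  refine Serv.mono (par' := fun a => (par a).filter
    (fun Q => (∀ x ∈ Q, x.1 o < n) ∧ ¬ (p ∈ Q ∧ p' ∈ Q))) ?_ (fun a => Finset.filter_subset _ _)
  refine R6 o u v w h i hi _ (fun a => Packing.filter (hpar a).toPacking _) ?_ ?_ _ ?_
  · intro a Q hQ x hx
    exact (Finset.mem_filter.1 hQ).2.1 x hx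
  · intro a Q hQ x hx y hy hc
    obtain ⟨c1, c2, c3, c4⟩ := hc
    have hsx := pt_sum h x
    have hsy := pt_sum h y
    have hxp : x = p := by
      refine pt_ext h ?_ ?_ ?_ ?_
      · rw [hp, pnt_other huv _ h.ou h.ov]; omega
      · rw [hp, pnt_u]; omega
      · rw [hp, pnt_v]; exact c2
      · rw [hp, pnt_other huv _ h.uw.symm h.vw.symm]; omega
    have hyp : y = p' := by
      refine pt_ext h ?_ ?_ ?_ ?_
      · rw [hp', pnt_other huv _ h.ou h.ov]; omega
      · rw [hp', pnt_u]; omega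
      · rw [hp', pnt_v]; exact c4
      · rw [hp', pnt_other huv _ h.uw.symm h.vw.symm]; omega
    exact (Finset.mem_filter.1 hQ).2.2 ⟨hxp ▸ hx, hyp ▸ hy⟩
  · intro a ha
    rw [hcard]
    rcases Finset.mem_insert.1 ha with rfl | haF
    · -- the tight agent loses at most one part
      have h1 := Finset.card_filter_add_card_filter_not (s := par a)
        (p := fun Q => (∀ x ∈ Q, x.1 o < n) ∧ ¬ (p ∈ Q ∧ p' ∈ Q))
      have h2 := card_filter_mem_le (hpar a).toPacking (vtx n o w how)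
        (fun Q => ¬ ((∀ x ∈ Q, x.1 o < n) ∧ ¬ (p ∈ Q ∧ p' ∈ Q))) (by
          intro Q hQ hn2
          by_contra h4
          apply hn2
          refine ⟨?_, ?_⟩
          · intro x hx
            by_contra h5
            exact h4 (eq_vtx how h5 ▸ hx)
          · rintro ⟨h5, h6⟩
            have hQQ : Q = Qb := by
              by_contra hne
              exact Set.disjoint_left.1 ((hpar a).disj Q hQ Qb hQb hne) h5 hm
            exact hm2 (hQQ ▸ h6))
      omega
    · have h1 := hF a haF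
      have h2 := card_filter_two (hpar a).toPacking (vtx n o w how) p
        (fun Q => (∀ x ∈ Q, x.1 o < n) ∧ ¬ (p ∈ Q ∧ p' ∈ Q)) (by
          intro Q hQ hn2
          by_cases h3 : p ∈ Q
          · exact Or.inr h3
          · left
            by_contra h4
            apply hn2
            refine ⟨?_, fun h5 => h3 h5.1⟩
            intro x hx
            by_contra h5
            exact h4 (eq_vtx how h5 ▸ hx))
      omega

end Pool.Agent.Helper66.MR
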